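import Pool.Agent.Helper14.TK7.StD

/-!
# Project TK (levels `3 * 7^n`), module Lif: lifting symbols modulo 7 to integral symbols
-/

set_option autoImplicit false

namespace Pool.Agent.Helper3.TK7

open Pool.Agent.Helper14.TK7
open Pool.Agent.Helper14.CV (Homog EqC act Tl)
open Pool.Agent.Helper4.TK (KTy SymK)
open Pool.Agent.Helper76.TK7 (edgeK)
open Pool.Agent.Helper84.S7

/-- the reduction modulo seven -/
private def red (G : ℤ → ℤ → ℤ) : ℤ → ℤ → ZMod 7 := fun p q => ((G p q : ℤ) : ZMod 7)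

private theorem red_Sym {r s : ℕ} {G : ℤ → ℤ → ℤ} (h : SymK 7 r s G) : SymK 7 r s (red G) := by
  refine ⟨?_, ?_⟩
  · intro k p q hk hpq
    change ((G (k * p) (k * q) : ℤ) : ZMod 7) = ((G p q : ℤ) : ZMod 7)
    rw [h.1 k p q hk hpq]
  · intro a b c d hdet hb hc
    obtain ⟨e, he⟩ := h.2 a b c d hdet hb hc
    refine ⟨(e : ZMod 7), ?_⟩
    intro p q hpq
    have h1 := he p q hpq
    have h2 : G (a * p + b * q) (c * p + d * q) = G p q + e := h1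
    change ((G (a * p + b * q) (c * p + d * q) : ℤ) : ZMod 7) = ((G p q : ℤ) : ZMod 7) + e
    rw [h2, Int.cast_add]

private theorem red_Tl (l : ℕ) (m : ℤ) (G : ℤ → ℤ → ℤ) : Tl l m (red G) = red (Tl l m G) := by
  funext p q
  change red G (l * p) q + ∑ j ∈ Finset.range l, red G (p + m * j * q) (l * q)
    = ((G (l * p) q + ∑ j ∈ Finset.range l, G (p + m * j * q) (l * q) : ℤ) : ZMod 7)
  rw [Int.cast_add, Int.cast_sum]
  rfl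

private theorem red_add (G H : ℤ → ℤ → ℤ) : red G + red H = red (G + H) := by
  funext p q
  simp only [Pi.add_apply, red, Int.cast_add]

private theorem red_zsmul (k : ℤ) (G : ℤ → ℤ → ℤ) : k • red G = red (k • G) := by
  funext p q
  simp only [Pi.smul_apply, red, zsmul_eq_mul, smul_eq_mul, Int.cast_mul]

private theorem red_CoK (m : ℤ) (G : ℤ → ℤ → ℤ) : CoK m (red G) = red (CoK m G) := by
  simp only [CoK, red_Tl, red_add, red_zsmul]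

private theorem red_AoK (m : ℤ) (G : ℤ → ℤ → ℤ) : AoK m (red G) = red (AoK m G) := by
  simp only [AoK, red_CoK, red_Tl, red_add, red_zsmul]

private theorem red_BoK (m : ℤ) (G : ℤ → ℤ → ℤ) : BoK m (red G) = red (BoK m G) := by
  simp only [BoK, red_Tl, red_add, red_zsmul]

private theorem red_UoK (m : ℤ) (G : ℤ → ℤ → ℤ) : UoK m (red G) = red (UoK m G) := by
  simp only [UoK, red_Tl, red_add, red_zsmul]

private theorem red_VoK (m : ℤ) (G : ℤ → ℤ → ℤ) : VoK m (red G) = red (VoK m G) := by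
  simp only [VoK, red_AoK, red_BoK, red_Tl, red_add, red_zsmul]

private theorem red_OoK (c : ℕ) (m : ℤ) (G : ℤ → ℤ → ℤ) : OoK c m (red G) = red (OoK c m G) := by
  unfold OoK
  split_ifs <;> simp only [red_Tl, red_add, red_zsmul]

private theorem red_iter (U : (ℤ → ℤ → ZMod 7) → (ℤ → ℤ → ZMod 7))
    (V : (ℤ → ℤ → ℤ) → (ℤ → ℤ → ℤ)) (h : ∀ G, U (red G) = red (V G)) (i : ℕ) (G : ℤ → ℤ → ℤ) :
    U^[i] (red G) = red (V^[i] G) := by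
  induction i generalizing G with
  | zero => rfl
  | succ i ih =>
    rw [Function.iterate_succ_apply, Function.iterate_succ_apply, h, ih]

private theorem red_ev (m : ℤ) (G : ℤ → ℤ → ℤ) (c i j : ℕ) :
    evK m (red G) c i j = ((evK m G c i j : ℤ) : ZMod 7) := by
  unfold evK
  rw [red_iter (VoK m) (VoK m) (red_VoK m), red_iter (UoK m) (UoK m) (red_UoK m),
    red_OoK, Int.cast_sub]
  rfl

private theorem red_pf {q q' : ℕ} (G : ℤ → ℤ → ℤ) (i : Fin 4) (x : ZMod q) (y : ZMod q') :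
    pfK (red G) i x y = ((pfK G i x y : ℤ) : ZMod 7) := by
  unfold pfK edgeK
  rw [Int.cast_sub]
  rfl

private theorem sub_pf {q q' : ℕ} (G H : ℤ → ℤ → ZMod 7) (i : Fin 4) (x : ZMod q) (y : ZMod q') :
    pfK (G + -H) i x y = pfK G i x y - pfK H i x y := by
  unfold pfK edgeK
  simp only [Pi.add_apply, Pi.neg_apply]
  abel

/-! `evK` depends only on the class up to constants -/

private theorem eqC_Tl {G H : ℤ → ℤ → ZMod 7} (l : ℕ) (hl : l ≠ 0) (m : ℤ) (h : EqC G H) :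
    EqC (Tl l m G) (Tl l m H) := by
  obtain ⟨c, hc⟩ := h
  refine ⟨c + (l : ZMod 7) * c, fun p q hpq => ?_⟩
  have hl' : (l : ℤ) ≠ 0 := by exact_mod_cast hl
  simp only [Tl]
  rw [hc (l * p) q (by
    rcases hpq with h0 | h0
    · exact Or.inl (mul_ne_zero hl' h0)
    · exact Or.inr h0)]
  have hs : ∑ j ∈ Finset.range l, G (p + m * j * q) (l * q) =
      ∑ j ∈ Finset.range l, (H (p + m * j * q) (l * q) + c) := by
    refine Finset.sum_congr rfl fun j _ => hc _ _ ?_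
    by_cases hq : q = 0
    · left
      rcases hpq with h0 | h0
      · rw [hq, mul_zero, add_zero]; exact h0
      · exact absurd hq h0
    · right
      exact mul_ne_zero hl' hq
  rw [hs, Finset.sum_add_distrib, Finset.sum_const, Finset.card_range, nsmul_eq_mul]
  ring

private theorem eqC_add {G H G' H' : ℤ → ℤ → ZMod 7} (h : EqC G H) (h' : EqC G' H') :
    EqC (G + G') (H + H') := by
  obtain ⟨c, hc⟩ := h
  obtain ⟨c', hc'⟩ := h'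
  refine ⟨c + c', fun p q hpq => ?_⟩
  simp only [Pi.add_apply]
  rw [hc p q hpq, hc' p q hpq]
  ring

private theorem eqC_zsmul {G H : ℤ → ℤ → ZMod 7} (k : ℤ) (h : EqC G H) :
    EqC (k • G) (k • H) := by
  obtain ⟨c, hc⟩ := h
  refine ⟨k • c, fun p q hpq => ?_⟩
  simp only [Pi.smul_apply]
  rw [hc p q hpq, smul_add]

private theorem n2 : (2 : ℕ) ≠ 0 := by norm_num
private theorem n5 : (5 : ℕ) ≠ 0 := by norm_num
private theorem n11 : (11 : ℕ) ≠ 0 := by norm_num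
private theorem n13 : (13 : ℕ) ≠ 0 := by norm_num
private theorem n17 : (17 : ℕ) ≠ 0 := by norm_num
private theorem n19 : (19 : ℕ) ≠ 0 := by norm_num
private theorem n23 : (23 : ℕ) ≠ 0 := by norm_num
private theorem n29 : (29 : ℕ) ≠ 0 := by norm_num
private theorem n31 : (31 : ℕ) ≠ 0 := by norm_num
private theorem n37 : (37 : ℕ) ≠ 0 := by norm_num
private theorem n41 : (41 : ℕ) ≠ 0 := by norm_num
private theorem n43 : (43 : ℕ) ≠ 0 := by norm_num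
private theorem n47 : (47 : ℕ) ≠ 0 := by norm_num

private theorem eqC_Co {G H : ℤ → ℤ → ZMod 7} (m : ℤ) (h : EqC G H) : EqC (CoK m G) (CoK m H) :=
  (eqC_add (eqC_add (eqC_add (eqC_zsmul 2 (eqC_Tl 2 n2 m h))
    (eqC_zsmul 5 (eqC_Tl 11 n11 m h)))
    (eqC_zsmul 5 (eqC_Tl 17 n17 m h)))
    (eqC_zsmul 2 (eqC_Tl 2 n2 m (eqC_Tl 2 n2 m h))))

private theorem eqC_Ao {G H : ℤ → ℤ → ZMod 7} (m : ℤ) (h : EqC G H) : EqC (AoK m G) (AoK m H) :=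
  (eqC_add (eqC_add (eqC_add (eqC_add (eqC_add (eqC_add (eqC_add (eqC_add (eqC_add (eqC_Tl 2 n2 m h)
    (eqC_zsmul 3 (eqC_Tl 5 n5 m h)))
    (eqC_zsmul 2 (eqC_Tl 11 n11 m h)))
    (eqC_zsmul 6 (eqC_Tl 13 n13 m h)))
    (eqC_zsmul 4 (eqC_Tl 17 n17 m h)))
    (eqC_zsmul 4 (eqC_Tl 19 n19 m h)))
    (eqC_Tl 29 n29 m h))
    (eqC_zsmul 6 (eqC_Tl 37 n37 m h)))
    (eqC_Tl 2 n2 m (eqC_Co m h)))
    (eqC_zsmul 6 (eqC_Tl 5 n5 m (eqC_Tl 5 n5 m h))))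

private theorem eqC_Bo {G H : ℤ → ℤ → ZMod 7} (m : ℤ) (h : EqC G H) : EqC (BoK m G) (BoK m H) :=
  (eqC_add (eqC_add (eqC_add (eqC_Tl 5 n5 m h)
    (eqC_zsmul 4 (eqC_Tl 11 n11 m h)))
    (eqC_zsmul 2 (eqC_Tl 13 n13 m h)))
    (eqC_Tl 31 n31 m h))

private theorem eqC_Uo {G H : ℤ → ℤ → ZMod 7} (m : ℤ) (h : EqC G H) : EqC (UoK m G) (UoK m H) :=
  (eqC_add (eqC_add (eqC_add (eqC_add (eqC_add (eqC_add (eqC_add (eqC_add (eqC_zsmul 4 h)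
    (eqC_zsmul 2 (eqC_Tl 2 n2 m h)))
    (eqC_zsmul 5 (eqC_Tl 11 n11 m h)))
    (eqC_zsmul 4 (eqC_Tl 13 n13 m h)))
    (eqC_zsmul 6 (eqC_Tl 19 n19 m h)))
    (eqC_zsmul 3 (eqC_Tl 23 n23 m h)))
    (eqC_Tl 41 n41 m h))
    (eqC_zsmul 6 (eqC_Tl 2 n2 m (eqC_Tl 2 n2 m h))))
    (eqC_zsmul 5 (eqC_Tl 2 n2 m (eqC_Tl 5 n5 m h))))

private theorem eqC_Vo {G H : ℤ → ℤ → ZMod 7} (m : ℤ) (h : EqC G H) : EqC (VoK m G) (VoK m H) :=
  (eqC_add (eqC_add (eqC_add (eqC_add (eqC_add (eqC_add (eqC_add (eqC_add (eqC_add (eqC_add (eqC_add (eqC_add (eqC_add (eqC_add (eqC_zsmul 2 (eqC_Tl 2 n2 m h))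
    (eqC_zsmul 4 (eqC_Tl 5 n5 m h)))
    (eqC_zsmul 5 (eqC_Tl 13 n13 m h)))
    (eqC_zsmul 2 (eqC_Tl 17 n17 m h)))
    (eqC_zsmul 5 (eqC_Tl 19 n19 m h)))
    (eqC_zsmul 6 (eqC_Tl 23 n23 m h)))
    (eqC_zsmul 6 (eqC_Tl 29 n29 m h)))
    (eqC_zsmul 2 (eqC_Tl 31 n31 m h)))
    (eqC_zsmul 4 (eqC_Tl 37 n37 m h)))
    (eqC_Tl 41 n41 m h))
    (eqC_zsmul 2 (eqC_Tl 43 n43 m h)))
    (eqC_zsmul 5 (eqC_Tl 47 n47 m h)))
    (eqC_Tl 2 n2 m (eqC_Ao m h)))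
    (eqC_Tl 5 n5 m (eqC_Bo m h)))
    (eqC_zsmul 4 (eqC_Tl 11 n11 m (eqC_Tl 11 n11 m h))))

private theorem eqC_Oo {G H : ℤ → ℤ → ZMod 7} (c : ℕ) (m : ℤ) (h : EqC G H) :
    EqC (OoK c m G) (OoK c m H) := by
  unfold OoK
  split_ifs
  · exact h
  · exact (eqC_add (eqC_zsmul 2 h)
    (eqC_zsmul 4 (eqC_Tl 2 n2 m h)))
  · exact (eqC_add h
    (eqC_zsmul 5 (eqC_Tl 2 n2 m (eqC_Tl 5 n5 m h))))
  · exact (eqC_add (eqC_add (eqC_add (eqC_add h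
    (eqC_zsmul 5 (eqC_Tl 2 n2 m h)))
    (eqC_zsmul 2 (eqC_Tl 5 n5 m h)))
    (eqC_zsmul 3 (eqC_Tl 11 n11 m h)))
    (eqC_zsmul 3 (eqC_Tl 2 n2 m (eqC_Tl 2 n2 m h))))
  · exact (eqC_add (eqC_add (eqC_add (eqC_add (eqC_zsmul 6 h)
    (eqC_Tl 11 n11 m h))
    (eqC_zsmul 4 (eqC_Tl 29 n29 m h)))
    (eqC_zsmul 3 (eqC_Tl 2 n2 m (eqC_Tl 5 n5 m h))))
    (eqC_zsmul 3 (eqC_Tl 2 n2 m (eqC_Tl 2 n2 m (eqC_Tl 2 n2 m h)))))
  · exact (eqC_add (eqC_add (eqC_add (eqC_add (eqC_add (eqC_add (eqC_add (eqC_add (eqC_add (eqC_add (eqC_add (eqC_zsmul 2 h)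
    (eqC_Tl 2 n2 m h))
    (eqC_zsmul 6 (eqC_Tl 5 n5 m h)))
    (eqC_Tl 11 n11 m h))
    (eqC_zsmul 6 (eqC_Tl 17 n17 m h)))
    (eqC_zsmul 3 (eqC_Tl 19 n19 m h)))
    (eqC_zsmul 4 (eqC_Tl 29 n29 m h)))
    (eqC_zsmul 2 (eqC_Tl 31 n31 m h)))
    (eqC_zsmul 3 (eqC_Tl 37 n37 m h)))
    (eqC_zsmul 3 (eqC_Tl 2 n2 m (eqC_Tl 5 n5 m h))))
    (eqC_zsmul 5 (eqC_Tl 2 n2 m (eqC_Tl 11 n11 m h))))
    (eqC_zsmul 4 (eqC_Tl 2 n2 m (eqC_Tl 2 n2 m (eqC_Tl 2 n2 m h)))))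
  · exact (eqC_add (eqC_add (eqC_add (eqC_add (eqC_add (eqC_add (eqC_add (eqC_add (eqC_add (eqC_add (eqC_zsmul 4 h)
    (eqC_zsmul 5 (eqC_Tl 2 n2 m h)))
    (eqC_zsmul 3 (eqC_Tl 5 n5 m h)))
    (eqC_zsmul 4 (eqC_Tl 13 n13 m h)))
    (eqC_zsmul 4 (eqC_Tl 19 n19 m h)))
    (eqC_zsmul 3 (eqC_Tl 23 n23 m h)))
    (eqC_Tl 29 n29 m h))
    (eqC_zsmul 3 (eqC_Tl 37 n37 m h)))
    (eqC_zsmul 5 (eqC_Tl 2 n2 m (eqC_Tl 2 n2 m h))))
    (eqC_zsmul 2 (eqC_Tl 2 n2 m (eqC_Tl 23 n23 m h))))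
    (eqC_zsmul 4 (eqC_Tl 2 n2 m (eqC_Tl 2 n2 m (eqC_Tl 2 n2 m h)))))
  · exact (eqC_add (eqC_add (eqC_add (eqC_add (eqC_add (eqC_add (eqC_add (eqC_add (eqC_add (eqC_add (eqC_add (eqC_add (eqC_add (eqC_zsmul 4 h)
    (eqC_zsmul 5 (eqC_Tl 2 n2 m h)))
    (eqC_zsmul 3 (eqC_Tl 5 n5 m h)))
    (eqC_zsmul 3 (eqC_Tl 11 n11 m h)))
    (eqC_zsmul 6 (eqC_Tl 13 n13 m h)))
    (eqC_zsmul 2 (eqC_Tl 17 n17 m h)))
    (eqC_zsmul 2 (eqC_Tl 23 n23 m h)))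
    (eqC_zsmul 4 (eqC_Tl 29 n29 m h)))
    (eqC_zsmul 3 (eqC_Tl 31 n31 m h)))
    (eqC_zsmul 4 (eqC_Tl 2 n2 m (eqC_Tl 2 n2 m h))))
    (eqC_zsmul 3 (eqC_Tl 2 n2 m (eqC_Tl 13 n13 m h))))
    (eqC_zsmul 5 (eqC_Tl 2 n2 m (eqC_Tl 17 n17 m h))))
    (eqC_zsmul 6 (eqC_Tl 2 n2 m (eqC_Tl 19 n19 m h))))
    (eqC_zsmul 5 (eqC_Tl 2 n2 m (eqC_Tl 2 n2 m (eqC_Tl 5 n5 m h)))))

private theorem eqC_iter (U : (ℤ → ℤ → ZMod 7) → (ℤ → ℤ → ZMod 7))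
    (hU : ∀ G H, EqC G H → EqC (U G) (U H)) (i : ℕ) {G H : ℤ → ℤ → ZMod 7} (h : EqC G H) :
    EqC (U^[i] G) (U^[i] H) := by
  induction i generalizing G H with
  | zero => exact h
  | succ i ih =>
    rw [Function.iterate_succ_apply, Function.iterate_succ_apply]
    exact ih (hU G H h)

private theorem evK_congr (m : ℤ) {G H : ℤ → ℤ → ZMod 7} (h : EqC G H) (c i j : ℕ) :
    evK m G c i j = evK m H c i j := by
  obtain ⟨e, he⟩ := eqC_Oo c m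
    (eqC_iter (UoK m) (fun _ _ => eqC_Uo m) i (eqC_iter (VoK m) (fun _ _ => eqC_Vo m) j h))
  unfold evK
  rw [he 1 0 (Or.inl one_ne_zero), he 0 1 (Or.inr one_ne_zero)]
  ring

/-- MODULE Lif. -/
theorem hLif (hr : TRel) (hp : TLifp) (hx : TEx) (hu : TUni) : TLif := by
  intro r s g hg
  have h1 := hr (ZMod 7) _ r s g hg
  obtain ⟨F, hF, hF1⟩ := hp r s _ h1
  obtain ⟨G, hG, hG1⟩ := hx ℤ _ r s F hF
  refine ⟨G, hG, ?_⟩
  have h2 : SymK 7 r (s + 1) (red G + -g) :=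
    Pool.Agent.Helper4.TK.SymK.add (red_Sym hG) (Pool.Agent.Helper4.TK.SymK.neg hg)
  have h3 : EqC (red G + -g) 0 := by
    refine hu (ZMod 7) _ r s _ h2 fun i => ?_
    funext x y
    rw [sub_pf, red_pf, hG1, hF1, sub_self]
    rfl
  have h4 : EqC (red G) g := by
    obtain ⟨c, hc⟩ := h3
    refine ⟨c, fun p q hpq => ?_⟩
    have h5 := hc p q hpq
    simp only [Pi.add_apply, Pi.neg_apply, Pi.zero_apply, zero_add] at h5
    rw [← h5]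
    abel
  intro c i j
  rw [← red_ev]
  exact evK_congr _ h4 c i j

end Pool.Agent.Helper3.TK7
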